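import Mathlib

/-!
# Freely indecomposable projective groups of every infinite size in one variety

In the variety `𝔐` of all groups with the laws `x ^ 6 = 1` and `[x ^ 2, y ^ 2] = 1` the group
`P = C₂ × C₃ ^ (X)` is projective for every infinite set `X`, it is abelian of size `|X|`, it is not
generated by fewer than `|X|` elements, and it is not an `𝔐`-free product in a nontrivial way:
in every decomposition of `P` as an `𝔐`-free product of groups of `𝔐` one factor is mapped
isomorphically onto `P` and all others are trivial. The projectivity of `P` and the two test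
homomorphisms to the symmetric group of degree three are those of an earlier run.
-/

set_option autoImplicit false

namespace Pool.Agent.Results.MP_b442e4_al.Indecomposable

open Cardinal

/-- `A` belongs to the variety given by the set of laws `S`. -/
def InVar (S : Set (FreeGroup ℕ)) (A : Type) [Group A] : Prop :=
  ∀ w ∈ S, ∀ f : ℕ → A, FreeGroup.lift f w = 1

/-- `P` is projective in the variety given by `S`. -/
def ProjectiveIn (S : Set (FreeGroup ℕ)) (P : Type) [Group P] : Prop :=
  InVar S P ∧ ∀ (A B : Type) [Group A] [Group B], InVar S A → InVar S B →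
    ∀ π : A →* B, Function.Surjective π → ∀ φ : P →* B, ∃ ψ : P →* A, π.comp ψ = φ

/-- `P`, with the homomorphisms `ι i : H i → P`, is the free product of the groups `H i` in the
variety given by `S`: their coproduct in the category of the groups of the variety. -/
def IsFreeProductIn (S : Set (FreeGroup ℕ)) {I : Type} (H : I → Type) [∀ i, Group (H i)]
    (P : Type) [Group P] (ι : ∀ i, H i →* P) : Prop :=
  (∀ i, InVar S (H i)) ∧ InVar S P ∧
    ∀ (K : Type) [Group K], InVar S K → ∀ g : ∀ i, H i →* K, ∃! θ : P →* K, ∀ i, θ.comp (ι i) = g i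

/-- The two laws `x ^ 6` and `[x ^ 2, y ^ 2]`. -/
def SS : Set (FreeGroup ℕ) :=
  {FreeGroup.of 0 ^ 6,
   FreeGroup.of 0 ^ 2 * FreeGroup.of 1 ^ 2 * (FreeGroup.of 0 ^ 2)⁻¹ * (FreeGroup.of 1 ^ 2)⁻¹}

lemma laws_iff (A : Type) [Group A] :
    InVar SS A ↔ (∀ a : A, a ^ 6 = 1) ∧ ∀ a b : A, a ^ 2 * b ^ 2 = b ^ 2 * a ^ 2 := by
  unfold InVar
  constructor
  · intro h
    refine ⟨fun a => ?_, fun a b => ?_⟩
    · simpa using h _ (Or.inl rfl) (fun _ => a)
    · have := h _ (Or.inr rfl) (fun n => if n = 0 then a else b)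
      simp only [map_mul, map_inv, map_pow, FreeGroup.lift_apply_of] at this
      simp only [if_true, one_ne_zero, if_false] at this
      rw [mul_inv_eq_one, mul_inv_eq_iff_eq_mul] at this
      exact this
  · rintro ⟨h1, h2⟩ w (rfl | rfl) f
    · simp [h1]
    · simp only [map_mul, map_inv, map_pow, FreeGroup.lift_apply_of]
      rw [h2]; group

section

variable (X : Type)

/-- The group `C₂ × C₃ ^ (X)`. -/
abbrev PP : Type := Multiplicative (ZMod 2) × Multiplicative (X →₀ ZMod 3)

variable {X}

noncomputable def tau : PP X := (Multiplicative.ofAdd 1, 1)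
noncomputable def ee (r : X) : PP X := (1, Multiplicative.ofAdd (Finsupp.single r 1))

lemma tau_sq : (tau : PP X) ^ 2 = 1 := by
  refine Prod.ext ?_ (by simp [tau])
  show (Multiplicative.ofAdd (1 : ZMod 2)) ^ 2 = 1
  decide

lemma ee_cube (r : X) : ee r ^ 3 = 1 := by
  refine Prod.ext (by simp [ee]) ?_
  show (Multiplicative.ofAdd (Finsupp.single r (1 : ZMod 3))) ^ 3 = 1
  rw [← ofAdd_nsmul, Finsupp.smul_single]
  have : (3 • (1 : ZMod 3)) = 0 := by decide
  rw [this]; simp

lemma hom_ext {B : Type} [Group B] (f g : PP X →* B) (h1 : f tau = g tau)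
    (h2 : ∀ r, f (ee r) = g (ee r)) : f = g := by
  have hL : ∀ x : Multiplicative (ZMod 2), f (x, 1) = g (x, 1) := by
    intro x
    have : ∀ x : Multiplicative (ZMod 2), x = 1 ∨ x = Multiplicative.ofAdd 1 := by decide
    rcases this x with rfl | rfl
    · rw [show ((1, 1) : PP X) = 1 from rfl, map_one, map_one]
    · exact h1
  have hR : ∀ v : X →₀ ZMod 3, f (1, Multiplicative.ofAdd v) = g (1, Multiplicative.ofAdd v) := by
    intro v
    induction v using Finsupp.induction_linear with
    | zero =>
      rw [show ((1, Multiplicative.ofAdd (0 : X →₀ ZMod 3)) : PP X) = 1 from rfl, map_one, map_one]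
    | add a b ha hb =>
      have : ((1, Multiplicative.ofAdd (a + b)) : PP X) =
          (1, Multiplicative.ofAdd a) * (1, Multiplicative.ofAdd b) := by
        ext <;> simp
      rw [this, map_mul, map_mul, ha, hb]
    | single r c =>
      have : ((1, Multiplicative.ofAdd (Finsupp.single r c)) : PP X) = ee r ^ c.val := by
        refine Prod.ext (by simp [ee]) ?_
        show _ = (Multiplicative.ofAdd (Finsupp.single r (1 : ZMod 3))) ^ c.val
        rw [← ofAdd_nsmul, Finsupp.smul_single]
        simp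
      rw [this, map_pow, map_pow, h2]
  refine MonoidHom.ext fun x => ?_
  obtain ⟨x, v⟩ := x
  have : ((x, v) : PP X) = (x, 1) * (1, Multiplicative.ofAdd v.toAdd) := by
    refine Prod.ext ?_ ?_ <;> simp
  rw [this, map_mul, map_mul, hL, hR]

lemma exists_zmod {C : Type} [CommGroup C] (n : ℕ) (t : C) (ht : t ^ n = 1) :
    ∃ f : ZMod n →+ Additive C, f 1 = Additive.ofMul t := by
  refine ⟨ZMod.lift n ⟨zmultiplesHom (Additive C) (Additive.ofMul t), ?_⟩, ?_⟩
  · simp only [zmultiplesHom_apply, natCast_zsmul]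
    rw [← ofMul_pow, ht]; rfl
  · have := ZMod.lift_coe n (⟨zmultiplesHom (Additive C) (Additive.ofMul t), by
      simp only [zmultiplesHom_apply, natCast_zsmul]
      rw [← ofMul_pow, ht]; rfl⟩ : {f : ℤ →+ Additive C // f n = 0}) 1
    simpa using this

lemma exists_hom {C : Type} [CommGroup C] (t : C) (b : X → C) (ht : t ^ 2 = 1)
    (hb : ∀ r, b r ^ 3 = 1) : ∃ ψ : PP X →* C, ψ tau = t ∧ ∀ r, ψ (ee r) = b r := by
  obtain ⟨f, hf⟩ := exists_zmod 2 t ht
  choose g hg using fun r => exists_zmod 3 (b r) (hb r)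
  refine ⟨MonoidHom.coprod (AddMonoidHom.toMultiplicativeLeft f)
    (AddMonoidHom.toMultiplicativeLeft (Finsupp.liftAddHom g)), ?_, fun r => ?_⟩
  · simp [tau, hf]
  · simp [ee, hg]

lemma proj (A B : Type) [Group A] [Group B] (hA : InVar SS A)
    (π : A →* B) (hπ : Function.Surjective π) (φ : PP X →* B) :
    ∃ ψ : PP X →* A, π.comp ψ = φ := by
  obtain ⟨h6, hc⟩ := (laws_iff A).1 hA
  obtain ⟨t0, ht0⟩ := hπ (φ tau)
  choose a ha using fun r => hπ (φ (ee r))
  set t : A := t0 ^ 3 with htdef
  have ht2 : t ^ 2 = 1 := by rw [htdef, ← pow_mul]; exact h6 t0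
  have hπt : π t = φ tau := by
    rw [htdef, map_pow, ht0, ← map_pow, pow_succ, tau_sq, one_mul]
  have e4 : ∀ r : X, ee r ^ 4 = ee r := fun r => by rw [pow_succ, ee_cube, one_mul]
  set b : X → A := fun r => (a r ^ 4 * (t * a r ^ 4 * t⁻¹)) ^ 2 with hbdef
  have hπb : ∀ r, π (b r) = φ (ee r) := by
    intro r
    simp only [hbdef, map_pow, map_mul, map_inv, ha, hπt]
    simp only [← map_pow, ← map_mul, ← map_inv]
    congr 1
    rw [e4, mul_inv_cancel_comm, ← pow_two, ← pow_mul, e4]
  have hb3 : ∀ r, b r ^ 3 = 1 := fun r => by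
    simp only [hbdef]; rw [← pow_mul]; exact h6 _
  have htinv : t⁻¹ = t := by
    rw [inv_eq_iff_mul_eq_one, ← pow_two, ht2]
  have htb : ∀ r, t * b r = b r * t := by
    intro r
    have h1 : a r ^ 4 * (t * a r ^ 4 * t⁻¹) = (t * a r ^ 4 * t⁻¹) * a r ^ 4 := by
      have := hc (a r ^ 2) (t * a r ^ 2 * t⁻¹)
      rw [conj_pow, ← pow_mul] at this
      exact this
    have h2 : Commute t (a r ^ 4 * (t * a r ^ 4 * t⁻¹)) := by
      have htt : t * t = 1 := by rw [← pow_two, ht2]
      unfold Commute SemiconjBy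
      conv_lhs => rw [h1]
      rw [htinv]
      simp only [← mul_assoc, htt, one_mul]
      rw [mul_assoc _ t t, htt, mul_one]
    exact (h2.pow_right 2).eq
  have hcomm : ∀ x ∈ ({t} ∪ Set.range b : Set A), ∀ y ∈ ({t} ∪ Set.range b : Set A),
      x * y = y * x := by
    rintro x (rfl | ⟨r, rfl⟩) y (rfl | ⟨s, rfl⟩)
    · rfl
    · exact htb s
    · exact (htb r).symm
    · exact hc _ _
  letI : CommGroup (Subgroup.closure ({t} ∪ Set.range b : Set A)) :=
    Subgroup.closureCommGroupOfComm hcomm
  obtain ⟨ψ, h1, h2⟩ := exists_hom (C := Subgroup.closure ({t} ∪ Set.range b : Set A))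
    ⟨t, Subgroup.subset_closure (Or.inl rfl)⟩
    (fun r => ⟨b r, Subgroup.subset_closure (Or.inr ⟨r, rfl⟩)⟩)
    (Subtype.ext ht2) (fun r => Subtype.ext (hb3 r))
  refine ⟨(Subgroup.subtype _).comp ψ, hom_ext _ _ ?_ fun r => ?_⟩
  · show π (ψ tau).1 = φ tau
    rw [h1]; exact hπt
  · show π (ψ (ee r)).1 = φ (ee r)
    rw [h2]; exact hπb r

/-- Two transpositions, as homomorphisms. -/
def chi0 : Bool → Multiplicative (ZMod 2) →* Equiv.Perm (Fin 3)
  | true => { toFun := fun x => Equiv.swap 0 1 ^ x.toAdd.val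
              map_one' := by decide
              map_mul' := by decide }
  | false => { toFun := fun x => Equiv.swap 1 2 ^ x.toAdd.val
               map_one' := by decide
               map_mul' := by decide }

def lam0 : Multiplicative (ZMod 3) →* Equiv.Perm (Fin 3) where
  toFun x := (Equiv.swap 0 1 * Equiv.swap 1 2) ^ x.toAdd.val
  map_one' := by decide
  map_mul' := by decide

noncomputable def chi (b : Bool) : PP X →* Equiv.Perm (Fin 3) :=
  (chi0 b).comp (MonoidHom.fst _ _)

noncomputable def lam (r : X) : PP X →* Equiv.Perm (Fin 3) :=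
  lam0.comp ((AddMonoidHom.toMultiplicative (Finsupp.applyAddHom r)).comp (MonoidHom.snd _ _))

lemma chi_apply (b : Bool) (x : PP X) : chi b x = chi0 b x.1 := rfl

lemma lam_apply (r : X) (x : PP X) : lam r x = lam0 (Multiplicative.ofAdd (x.2.toAdd r)) := rfl

lemma lawsPP : InVar SS (PP X) := by
  rw [laws_iff]
  refine ⟨fun a => ?_, fun a b => mul_comm _ _⟩
  have : (powMonoidHom 6 : PP X →* PP X) = 1 := by
    refine hom_ext _ _ ?_ fun r => ?_
    · show tau ^ (2 * 3) = 1
      rw [pow_mul, tau_sq, one_pow]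
    · show ee r ^ (3 * 2) = 1
      rw [pow_mul, ee_cube, one_pow]
  exact DFunLike.congr_fun this a

lemma lawsS3 : InVar SS (Equiv.Perm (Fin 3)) := by
  rw [laws_iff]
  constructor <;> decide +kernel

lemma chi0_ne (b : Bool) (u : Multiplicative (ZMod 2)) : chi0 b u = 1 ↔ u = 1 := by
  revert b u; decide

lemma lam0_ne (u : Multiplicative (ZMod 3)) : lam0 u = 1 ↔ u = 1 := by
  revert u; decide

lemma key1 (u : Multiplicative (ZMod 2)) (v : Multiplicative (ZMod 3))
    (h1 : u ≠ 1) (h2 : v ≠ 1) : chi0 true u * lam0 v ≠ lam0 v * chi0 true u := by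
  revert u v; decide

lemma key2 (u v : Multiplicative (ZMod 2))
    (h1 : u ≠ 1) (h2 : v ≠ 1) : chi0 true u * chi0 false v ≠ chi0 false v * chi0 true u := by
  revert u v; decide

/-- Fewer than `|X|` elements do not generate `P`. -/
lemma card_le_of_closure [Infinite X] (s : Set (PP X)) (hs : Subgroup.closure s = ⊤) : #X ≤ #s := by
  classical
  have hcov : ∀ r : X, ∃ x ∈ s, x.2.toAdd r ≠ 0 := by
    intro r
    by_contra hcon
    push Not at hcon
    have h1 : Subgroup.closure s ≤ (lam r).ker := by
      rw [Subgroup.closure_le]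
      intro x hx
      rw [SetLike.mem_coe, MonoidHom.mem_ker, lam_apply, hcon x hx]
      simp
    rw [hs] at h1
    have h2 := h1 (Subgroup.mem_top (ee r))
    rw [MonoidHom.mem_ker, lam_apply] at h2
    simp only [ee, toAdd_ofAdd, Finsupp.single_eq_same] at h2
    revert h2
    decide
  have hU : (Set.univ : Set X) ⊆ ⋃ x : s, ((x.1.2.toAdd.support : Finset X) : Set X) := by
    intro r _
    obtain ⟨x, hx, hr⟩ := hcov r
    exact Set.mem_iUnion.2 ⟨⟨x, hx⟩, by simpa using hr⟩
  have h0 : Infinite s := by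
    by_contra hf
    rw [not_infinite_iff_finite] at hf
    have : (Set.univ : Set X).Finite :=
      (Set.finite_iUnion fun x : s => Finset.finite_toSet _).subset hU
    exact Set.infinite_univ this
  calc #X = #(Set.univ : Set X) := mk_univ.symm
    _ ≤ #(⋃ x : s, ((x.1.2.toAdd.support : Finset X) : Set X)) := mk_le_mk_of_subset hU
    _ ≤ #s * ℵ₀ := by
      refine (mk_iUnion_le _).trans ?_
      gcongr
      refine ciSup_le' fun x => ?_
      exact (Cardinal.lt_aleph0_of_finite _).le
    _ = #s := by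
      rw [mul_eq_left (aleph0_le_mk _) (aleph0_le_mk _) aleph0_ne_zero]

lemma indecomposable {I : Type} {H : I → Type} [∀ i, Group (H i)] {ι : ∀ i, H i →* PP X}
    (h : IsFreeProductIn SS H (PP X) ι) :
    ∃ i, Function.Bijective (ι i) ∧ ∀ j, j ≠ i → Subsingleton (H j) := by
  classical
  obtain ⟨hH, -, hU⟩ := h
  have huniq : ∀ θ : PP X →* Equiv.Perm (Fin 3), (∀ i, θ.comp (ι i) = 1) → θ = 1 := by
    intro θ hθ
    exact (hU _ lawsS3 (fun _ => 1)).unique hθ (fun i => by ext1; simp)
  obtain ⟨i0, hi0⟩ : ∃ i, (chi true).comp (ι i) ≠ 1 := by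
    by_contra hcon
    push Not at hcon
    have := DFunLike.congr_fun (huniq _ hcon) tau
    rw [chi_apply, MonoidHom.one_apply, chi0_ne] at this
    revert this
    show ¬ ((Multiplicative.ofAdd (1 : ZMod 2)) = 1)
    decide
  obtain ⟨x, hx⟩ : ∃ x, (ι i0 x).1 ≠ 1 := by
    by_contra hcon
    push Not at hcon
    refine hi0 (MonoidHom.ext fun x => ?_)
    rw [MonoidHom.comp_apply, chi_apply, hcon x, map_one, MonoidHom.one_apply]
  -- all homomorphisms from another factor to the symmetric group commute with a transposition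
  have hcom : ∀ j, j ≠ i0 → ∀ g : H j →* Equiv.Perm (Fin 3), ∀ y,
      chi0 true (ι i0 x).1 * g y = g y * chi0 true (ι i0 x).1 := by
    intro j hj g y
    obtain ⟨θ, hθ, -⟩ := hU _ lawsS3
      (fun i => if hi : i = i0 then (chi true).comp (ι i) else
        if hi : i = j then g.comp (by subst hi; exact MonoidHom.id _) else 1)
    have e1 := hθ i0
    have e2 := hθ j
    rw [dif_pos rfl] at e1
    rw [dif_neg hj, dif_pos rfl] at e2
    have e3 : θ (ι i0 x) = chi0 true (ι i0 x).1 := DFunLike.congr_fun e1 x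
    have e4 : θ (ι j y) = g y := DFunLike.congr_fun e2 y
    rw [← e3, ← e4, ← map_mul, ← map_mul, mul_comm]
  have htriv : ∀ j, j ≠ i0 → ∀ y, ι j y = 1 := by
    intro j hj y
    have h1 : (ι j y).1 = 1 := by
      by_contra hne
      exact key2 _ _ hx hne (hcom j hj ((chi false).comp (ι j)) y)
    have h2 : (ι j y).2 = 1 := by
      apply Multiplicative.toAdd.injective
      rw [toAdd_one]
      ext r
      by_contra hne
      have hne' : Multiplicative.ofAdd ((ι j y).2.toAdd r) ≠ 1 := by
        intro h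
        exact hne (by simpa using h)
      have h3 := hcom j hj ((lam r).comp (ι j)) y
      exact key1 _ _ hx hne' h3
    exact Prod.ext h1 h2
  -- each factor is a retract
  have hretr : ∀ j, ∃ θ : PP X →* H j, θ.comp (ι j) = MonoidHom.id _ ∧
      ∀ i, i ≠ j → θ.comp (ι i) = 1 := by
    intro j
    obtain ⟨θ, hθ, -⟩ := hU _ (hH j)
      (fun i => if hi : i = j then (by subst hi; exact MonoidHom.id _) else 1)
    refine ⟨θ, ?_, fun i hi => ?_⟩
    · have := hθ j
      rwa [dif_pos rfl] at this
    · have := hθ i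
      rwa [dif_neg hi] at this
  obtain ⟨θ, h1, h2⟩ := hretr i0
  refine ⟨i0, ⟨?_, ?_⟩, ?_⟩
  · exact Function.LeftInverse.injective (g := θ) fun y => DFunLike.congr_fun h1 y
  · have h3 : (ι i0).comp θ = MonoidHom.id _ := by
      refine (hU _ lawsPP ι).unique (fun i => ?_) (fun i => by ext1; simp)
      by_cases hi : i = i0
      · subst hi
        rw [MonoidHom.comp_assoc, h1, MonoidHom.comp_id]
      · rw [MonoidHom.comp_assoc, h2 i hi, MonoidHom.comp_one]
        ext1 y
        rw [htriv i hi y, MonoidHom.one_apply]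
    exact Function.RightInverse.surjective (g := θ) fun y => DFunLike.congr_fun h3 y
  · intro j hj
    obtain ⟨θ', h3, -⟩ := hretr j
    refine ⟨fun y z => ?_⟩
    have e1 := DFunLike.congr_fun h3 y
    have e2 := DFunLike.congr_fun h3 z
    simp only [MonoidHom.comp_apply, MonoidHom.id_apply] at e1 e2
    rw [← e1, ← e2, htriv j hj, htriv j hj]

end

/-- There is a variety of groups, defined by two laws, such that for every infinite set `X` there is
a group `P` of the cardinality of `X` which is projective in the variety, is not generated by fewer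
than `|X|` elements (so it is infinitely generated), and is freely indecomposable in the
variety: in every decomposition of `P` as a free product of the variety one factor maps
isomorphically onto `P` and all others are trivial. In particular, for uncountable `X` the group is not
a free product in the variety of countably generated groups. -/
theorem result : ∃ S : Set (FreeGroup ℕ), S.Finite ∧ ∀ (X : Type) [Infinite X],
    ∃ (P : Type) (_ : Group P), ProjectiveIn S P ∧ #P = #X ∧ ¬ Group.FG P ∧
      (∀ s : Set P, Subgroup.closure s = ⊤ → #X ≤ #s) ∧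
      (∀ (I : Type) (H : I → Type) (_ : ∀ i, Group (H i)) (ι : ∀ i, H i →* P),
        IsFreeProductIn S H P ι →
          ∃ i, Function.Bijective (ι i) ∧ ∀ j, j ≠ i → Subsingleton (H j)) ∧
      (Uncountable X → ¬ ∃ (I : Type) (H : I → Type) (_ : ∀ i, Group (H i)) (ι : ∀ i, H i →* P),
        IsFreeProductIn S H P ι ∧
          ∀ i, ∃ s : Set (H i), s.Countable ∧ Subgroup.closure s = ⊤) := by
  refine ⟨SS, by simp [SS], fun X _ => ?_⟩
  refine ⟨PP X, inferInstance, ⟨lawsPP, fun A B _ _ hA _ π hπ φ => proj A B hA π hπ φ⟩, ?_, ?_,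
    fun s hs => card_le_of_closure s hs, fun I H _ ι h => indecomposable h, ?_⟩
  · show #(Multiplicative (ZMod 2) × Multiplicative (X →₀ ZMod 3)) = #X
    have h1 : #(Multiplicative (X →₀ ZMod 3)) = #X := by
      show #(X →₀ ZMod 3) = #X
      rw [Cardinal.mk_finsupp_of_infinite]
      exact max_eq_left ((Cardinal.lt_aleph0_of_finite _).le.trans (aleph0_le_mk X))
    rw [mk_prod, h1, lift_id, lift_id]
    refine mul_eq_right (aleph0_le_mk X)
      ((Cardinal.lt_aleph0_of_finite _).le.trans (aleph0_le_mk X)) ?_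
    exact Cardinal.mk_ne_zero _
  · intro hfg
    obtain ⟨s, hs, hfin⟩ := Group.fg_iff.1 hfg
    have h1 := card_le_of_closure s hs
    have h2 : #s < ℵ₀ := hfin.lt_aleph0
    exact absurd (aleph0_le_mk X) (not_le.2 (h1.trans_lt h2))
  · rintro hX ⟨I, H, _, ι, h1, h2⟩
    obtain ⟨i, hi, -⟩ := indecomposable h1
    obtain ⟨s, hs, hcl⟩ := h2 i
    have h3 := card_le_of_closure (ι i '' s) (by
      rw [← MonoidHom.map_closure, hcl]
      exact Subgroup.map_top_of_surjective _ hi.2)
    have h4 : #(ι i '' s) ≤ ℵ₀ := mk_image_le.trans (Set.Countable.le_aleph0 hs)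
    have h5 : ℵ₀ < #X := Cardinal.aleph0_lt_mk_iff.2 hX
    exact absurd (h3.trans h4) (not_le.2 h5)

end Pool.Agent.Results.MP_b442e4_al.Indecomposable
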